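import Pool.Agent.R671.IS.Asm

/-!
# Free-submodule incidence graphs over `ℤ/p^r` and `F_p[t]/(t^r)` are isospectral

For every prime `p` and all `r`, `d` and `m ≤ n ≤ d`, the bipartite graphs of the free submodules of
ranks `m` and `n` of `R ^ d`, for `R = ℤ/p^r` and for `R = F_p[t]/(t^r)`, are finite and their
adjacency matrices have the same characteristic polynomial.
-/

open Pool.Agent.R671.IS

namespace Pool.Agent.Results.MP_acbd57_co.FreeGraphsIsospectral

theorem result (p : ℕ) (hp : p.Prime) (r d m n : ℕ) (hm : m ≤ n) (hn : n ≤ d) :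
    Isospectral (incGraph (ZMod (p ^ r)) d m n)
      (incGraph (Polynomial (ZMod p) ⧸ Ideal.span {(Polynomial.X : Polynomial (ZMod p)) ^ r})
        d m n) := by
  have : Fact p.Prime := ⟨hp⟩
  exact main p r d m n hm hn

end Pool.Agent.Results.MP_acbd57_co.FreeGraphsIsospectral
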